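import Pool.Agent.Y581.WN.StmS

/-!
# WN-ONE: one error of a reduction, by changes in the block
-/

set_option autoImplicit false

namespace Pool.Agent.Y356.WN

open Filter Pool.Agent.NPC Pool.Agent.H622R2 Pool.Agent.H620R2.Gauge Pool.Agent.TH678.GC
  Pool.Agent.H591R3.PHG Pool.Agent.TH678.RS Pool.Agent.H622R2.Exp Pool.Agent.Y626.WG
  Pool.Agent.Y581.WN

theorem leaf_blk {n k t c ν τ : ℕ} {S : ℕ → List ℕ} (hS : Sel k ν τ S) {q : List Bool}
    {p : ℕ × ℕ × List ℕ} (h : IsLeafn n t c ν τ S q p) : q ∈ Blk n k t c ν :=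
  ⟨p.1, h.1, S p.2.1 ++ p.2.2, (hS.tup _ h.2.1).append h.2.2.1, h.2.2.2⟩

theorem orcn_of_not {B : Oracle} {n k t c ν τ : ℕ} {S : ℕ → List ℕ} {rest : List ℕ}
    {f : List Bool → Bool} {q : List Bool} (h : ¬ ∃ p, IsLeafn n t c ν τ S q p) :
    orcn B n k t c ν τ S rest f q = basen B n k t c ν q := by
  unfold orcn
  rw [dif_neg h]

theorem basen_of_not {B : Oracle} {n k t c ν : ℕ} {q : List Bool} (h : q ∉ Blk n k t c ν) :
    basen B n k t c ν q = B q := by
  unfold basen
  rw [if_neg h]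

theorem t_onea (h2 : S_sat) (h3 : @S_mat) (h4 : S_sel) (h5 : S_siz) (h6 : S_num) : S_onea := by
  classical
  intro t M σ G
  obtain ⟨b, hb⟩ := M.out_length
  obtain ⟨d₂, _, hd₂⟩ := YAux.poly_bound b
  obtain ⟨qb, hqb⟩ := M.out_local
  filter_upwards [h6 t (kk M) σ.length G d₂] with n hn
  intro u hu B
  set k := kk M with hk
  have hk' : k = 2 * pe M + 3 := rfl
  obtain ⟨hu1, hL, hG, hsz, hnum⟩ := hn u hu
  set ν := 512 * u with hν
  set c := u + 11 with hc
  set x : ℕ → Inst := hardn n k t c ν with hx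
  set A₀ := basen B n k t c ν with hA₀
  have hA₀' : ∀ y ∉ Blk n k t c ν, A₀ y = B y := fun y hy => basen_of_not hy
  by_cases hbad : ∃ j, Badn t M σ G (x j) A₀
  · exact ⟨A₀, hA₀', hbad⟩
  have hgood : ∀ j, ∃ I : Inst, M.out A₀ (pairBits σ (bits (x j))) = some (bits I) ∧
      I.IsA t ∧ I.param ≤ G := by
    intro j
    by_contra hcon
    refine hbad ⟨j, fun ⟨I, h1, h2, h3, _⟩ => hcon ⟨I, h1, h2, h3⟩⟩
  choose I' hI1 hI2 hI3 using hgood
  -- the sizes
  have hlen : ∀ j, (pairBits σ (bits (x j))).length + 2 ≤ 2 ^ (2 * ν) := by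
    intro j
    have h1 := h5 n k t c ν j
    rw [length_pairBits, bits_length]
    have e : 2 * ν = 1024 * u := by omega
    rw [e]
    have h2 : sz (x j) = sz (hardn n k t c ν j) := rfl
    omega
  -- the questions
  have hQ : ∀ j, ∃ Q : Finset (List Bool), Q.card ≤ 2 ^ (2 * ν * pe M) ∧
      ∀ A' : Oracle, (∀ q ∈ Q, A' q = A₀ q) →
        M.out A' (pairBits σ (bits (x j))) = some (bits (I' j)) := by
    intro j
    obtain ⟨Q, h1, _, h3⟩ := hqb A₀ (pairBits σ (bits (x j)))
    refine ⟨Q, h1.trans ((pe_spec M _).trans ?_), fun A' hA' => (h3 A' hA').trans (hI1 j)⟩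
    rw [pow_mul]
    exact Nat.pow_le_pow_left (hlen j) _
  choose Q hQ1 hQ2 using hQ
  set Qa : Finset (List Bool) := (Finset.range (2 ^ c)).biUnion Q with hQa
  -- the hard formula
  obtain ⟨as, has1, has2, s, hs⟩ := core t (n := 8 * u) (u := u) (by omega) (le_refl _)
  have has2' : ∀ a ∈ as, a ≤ ν := fun a ha => (has2 a ha).trans (by omega)
  obtain ⟨τ, rest, hτ⟩ : ∃ τ rest, as.reverse = τ :: rest := by
    rcases h : as.reverse with _ | ⟨τ, rest⟩
    · exfalso
      have := congrArg List.length h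
      rw [List.length_reverse, has1, List.length_nil] at this
      omega
    · exact ⟨τ, rest, rfl⟩
  have hτ1 : τ ≤ ν := has2' τ (by rw [← List.mem_reverse, hτ]; exact List.mem_cons_self ..)
  have hrest : ∀ a ∈ rest, a ≤ ν := fun a ha =>
    has2' a (by rw [← List.mem_reverse, hτ]; exact List.mem_cons_of_mem _ ha)
  have hrl : rest.length = t := by
    have := congrArg List.length hτ
    rw [List.length_reverse, has1, List.length_cons] at this
    omega
  -- the choice of the subtrees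
  have hQc : Qa.card + 2 ^ τ ≤ 2 ^ (ν * k) := by
    have h1 : Qa.card ≤ 2 ^ c * 2 ^ (2 * ν * pe M) := by
      refine Finset.card_biUnion_le.trans ?_
      refine (Finset.sum_le_sum fun j _ => hQ1 j).trans ?_
      rw [Finset.sum_const, Finset.card_range, smul_eq_mul]
    have h2 : (2 : ℕ) ^ c ≤ 2 ^ ν := Nat.pow_le_pow_right (by norm_num) (by omega)
    have h3 : (2 : ℕ) ^ τ ≤ 2 ^ ν := Nat.pow_le_pow_right (by norm_num) hτ1
    have h4 : (2 : ℕ) ^ (ν * k) = 2 ^ ν * 2 ^ (2 * ν * pe M) * 2 ^ ν * 2 ^ ν := by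
      rw [← pow_add, ← pow_add, ← pow_add, hk']
      congr 1
      ring
    have h5 : 1 ≤ (2 : ℕ) ^ (2 * ν * pe M) := Nat.one_le_two_pow
    have h6 : 2 ≤ (2 : ℕ) ^ ν := by
      calc 2 = 2 ^ 1 := by norm_num
        _ ≤ 2 ^ ν := Nat.pow_le_pow_right (by norm_num) (by omega)
    rw [h4]
    set P := (2 : ℕ) ^ (2 * ν * pe M) with hP
    set W := (2 : ℕ) ^ ν with hW
    have h7 : 2 ^ c * P ≤ W * P := Nat.mul_le_mul_right _ h2
    have h8 : W * P + W ≤ W * P * W * W := by
      have h9 : W ≤ W * P := Nat.le_mul_of_pos_right _ h5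
      have h10 : W * P * 2 ≤ W * P * W := Nat.mul_le_mul_left _ h6
      have h11 : W * P * W ≤ W * P * W * W := Nat.le_mul_of_pos_right _ (by omega)
      omega
    omega
  obtain ⟨S, hS1, hS2⟩ := h4 n k t c ν τ (by omega) Qa hQc
  -- the values of the variables
  set m := 1024 * u * d₂ * G with hm
  have hdec : ∀ (j s' : ℕ), ∃ d : List Bool → List ℕ, s' ≤ G →
      (∀ w, Tup (I' j).labels.length s' (d w)) ∧
      ∀ a, Tup (I' j).labels.length s' a → ∃ w : List Bool, w.length ≤ m ∧ d w = a := by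
    intro j s'
    by_cases hs' : s' ≤ G
    · have hN : 1 ≤ (I' j).labels.length := List.length_pos_iff.2 (hI2 j).1
      have hNm : (I' j).labels.length ^ s' ≤ 2 ^ m := by
        have h1 := hb _ _ _ (hI1 j)
        have h2 := (hd₂ (pairBits σ (bits (x j))).length).trans
          (Nat.pow_le_pow_left (hlen j) d₂)
        have h3 := labels_lt (I' j)
        have h4 : (I' j).labels.length ≤ 2 ^ (2 * ν * d₂) := by rw [pow_mul]; omega
        refine (Nat.pow_le_pow_left h4 s').trans ?_
        rw [← pow_mul]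
        refine Nat.pow_le_pow_right (by norm_num) ?_
        have e : 2 * ν * d₂ = 1024 * u * d₂ := by rw [hν]; ring
        rw [e, hm]
        exact Nat.mul_le_mul_left _ hs'
      obtain ⟨d, hd1, hd2⟩ := exists_dec hN hNm
      exact ⟨d, fun _ => ⟨hd1, hd2⟩⟩
    · exact ⟨fun _ => [], fun h => absurd h hs'⟩
  choose d hd using hdec
  -- the decision trees
  set A : (Idx (Fin (2 ^ c)) (pw as) → Bool) → Oracle := fun z =>
    orcn B n k t c ν τ S rest (fo c as (val s z)) with hA
  set Leaf : List (List Bool) → List Bool → (Idx (Fin (2 ^ c)) (pw as) → Bool) → Bool :=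
    fun ws y z => @decide ((I' y.length).atoms.map ((I' y.length).atom (A z)
      (dcd (d y.length) (I' y.length).blocks ws)) ∈ (I' y.length).acc)
      (Classical.propDecidable _) with hLeaf
  obtain ⟨z, j, hzj⟩ := hs m (2 ^ (u + 11)) (fun y => Leaf (ass t y).1 (ass t y).2)
    (fun y _ => by
      have h1 := @h3 (2 ^ c) c as s B n k t ν τ S rest (I' (ass t y).2.length)
        (dcd (d (ass t y).2.length) (I' (ass t y).2.length).blocks (ass t y).1)
      exact h1.mono (((length_le_param _).trans (hI3 _)).trans hG))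
    (fun j => List.replicate j.val true) (fun j => by
      rw [List.length_replicate]; exact j.2.le) hnum
  have hA' : ∀ y ∉ Blk n k t c ν, A z y = B y := fun y hy =>
    (orcn_of_not (fun ⟨p, hp⟩ => hy (leaf_blk hS1 hp))).trans (basen_of_not hy)
  refine ⟨A z, hA', j.val, ?_⟩
  rintro ⟨I, h1, h2', h3', h4'⟩
  have h5' : M.out (A z) (pairBits σ (bits (x j.val))) = some (bits (I' j.val)) := by
    refine hQ2 j.val _ fun q hq => ?_
    exact orcn_of_not (hS2 q (Finset.mem_biUnion.2 ⟨j.val, Finset.mem_range.2 j.2, hq⟩))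
  have h6' : I = I' j.val := by
    have h7 := h1.symm.trans h5'
    exact bits_injective (Option.some.inj h7)
  subst h6'
  have h7 : (x j.val).Sat (A z) ↔ Tr (pw as) (val s z) j = false := by
    rw [Tr_fo (le_refl _) as (val s z) j, hτ]
    exact h2 B n k t c ν τ j.val S hS1 (by omega) j.2 rest hrl hrest _
  have h8 : (QF m (fun y => Leaf (ass t y).1 (ass t y).2) t true
      (List.replicate j.val true) z = true ↔ (I' j.val).Sat (A z)) := by
    refine sat_qf (hI2 j.val) (d j.val) (fun s' hs' =>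
      hd j.val s' ((block_le_param _ hs').trans (hI3 _))) Leaf _ z fun ws => ?_
    rw [hLeaf]
    simp only [List.length_replicate, decide_eq_true_eq]
  rw [h4'.trans h8.symm, hzj] at h7
  cases h9 : Tr (pw as) (val s z) j <;> simp [h9] at h7

end Pool.Agent.Y356.WN
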